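import Pool.Agent.QTot.Defs
import Pool.Agent.QTot.MB
import Pool.Agent.QTot.MI

set_option autoImplicit false
open scoped ContDiff Manifold Topology Matrix
open MeasureTheory Filter Set

namespace Pool.Agent.Results.MP_993073_gt.UnboundedTotalQ

open Pool.Agent.QTot

/-- **Total Q-curvature is unbounded above in every even dimension `n ≥ 6`.**  Let `n ≥ 6` be even and let `M` be a
closed (compact, without boundary, nonempty) smooth `n`-manifold.  Then there are smooth Riemannian metrics `g i` on
`M` with Riemannian volume measures `μ i` such that the total Q-curvatures `∫ Q_{g i} dμ i` tend to `+∞`.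
The Q-curvature does not depend on the chart in which it is computed, and it is integrable. -/
theorem result (n : ℕ) (hn : Even n) (h6 : 6 ≤ n) (M : Type) [TopologicalSpace M] [ChartedSpace (Eu n) M]
    [IsManifold 𝓘(ℝ, Eu n) ∞ M] [CompactSpace M] [T2Space M] [Nonempty M] [MeasurableSpace M] [BorelSpace M] :
    ∃ (g : ℕ → RMetric n M) (μ : ℕ → Measure M),
      (∀ i, (g i).IsVolume (μ i)) ∧
      (∀ i, ∀ e ∈ atlas (Eu n) M, ∀ x ∈ e.source, (g i).Q x = Qloc ((g i).G e) (e x)) ∧
      (∀ i, Integrable (g i).Q (μ i)) ∧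
      Tendsto (fun i => ∫ x, (g i).Q x ∂(μ i)) atTop atTop := by
  obtain ⟨g, μ, h1, h2, h3⟩ := Pool.Agent.QTot.MI.main hn h6 M
  exact ⟨g, μ, h1, fun i e he x hx => Pool.Agent.QTot.MB.Q_chart (g i) he hx, h2, h3⟩

end Pool.Agent.Results.MP_993073_gt.UnboundedTotalQ
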